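import Pool.Agent.R341.SG.Stm

set_option autoImplicit false

open Finset Module
open scoped InnerProductSpace Matrix

namespace Pool.Agent.R842.SG

theorem spec (S : Type) [Fintype S] [DecidableEq S] [Nonempty S] (M : Matrix S S ℝ)
    (hM : M.IsHermitian) (d0 : ℝ) (hd0 : 0 < d0)
    (hU : ∀ θ : ℝ, θ ≠ 0 → ∀ U : Submodule ℝ (S → ℝ), (∀ F, F ∈ U ↔ M *ᵥ F = θ • F) → U ≠ ⊥ →
      d0 ≤ (finrank ℝ U : ℝ)) (F : S → ℝ) :
    (∑ A, ∑ B, M A B * F A * F B) ^ 2 ≤ (∑ A, ∑ B, M A B ^ 2) / d0 * (∑ A, F A ^ 2) ^ 2 := by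
  have hT : (Matrix.toEuclideanLin M).IsSymmetric := Matrix.isSymmetric_toEuclideanLin_iff.2 hM
  set T := Matrix.toEuclideanLin M with hTdef
  have hn : finrank ℝ (EuclideanSpace ℝ S) = Fintype.card S := finrank_euclideanSpace
  set b := hT.eigenvectorBasis hn with hb
  set lam := hT.eigenvalues hn with hlam
  have hpos : 0 < Fintype.card S := Fintype.card_pos
  have : Nonempty (Fin (Fintype.card S)) := ⟨⟨0, hpos⟩⟩
  obtain ⟨i0, hi0⟩ := Finite.exists_max (fun i => |lam i|)
  have happ : ∀ i, T (b i) = lam i • b i := fun i => by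
    have := hT.apply_eigenvectorBasis hn i
    exact this
  -- the quadratic form
  set x : EuclideanSpace ℝ S := WithLp.toLp 2 F with hx
  have hquad : ∑ A, ∑ B, M A B * F A * F B = ⟪x, T x⟫_ℝ := by
    rw [hTdef, Matrix.toEuclideanLin_apply, hx, EuclideanSpace.inner_eq_star_dotProduct]
    simp only [dotProduct, Matrix.mulVec, star_trivial]
    apply Finset.sum_congr rfl
    intro A _
    rw [Finset.sum_mul]
    apply Finset.sum_congr rfl
    intro B _
    ring
  have hnorm : ∑ A, F A ^ 2 = ‖x‖ ^ 2 := by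
    rw [EuclideanSpace.norm_sq_eq]
    simp [hx]
  have hexp : |⟪x, T x⟫_ℝ| ≤ |lam i0| * ‖x‖ ^ 2 := by
    have h1 : ⟪x, T x⟫_ℝ = ∑ i, ⟪x, b i⟫_ℝ * ⟪b i, T x⟫_ℝ := (b.sum_inner_mul_inner x (T x)).symm
    have h2 : ∀ i, ⟪b i, T x⟫_ℝ = lam i * ⟪b i, x⟫_ℝ := by
      intro i
      rw [← hT (b i) x, happ i, real_inner_smul_left]
    have h3 : ‖x‖ ^ 2 = ∑ i, ⟪x, b i⟫_ℝ * ⟪b i, x⟫_ℝ := by
      rw [b.sum_inner_mul_inner x x, real_inner_self_eq_norm_sq]
    rw [h1, h3, Finset.mul_sum]
    refine (Finset.abs_sum_le_sum_abs _ _).trans (Finset.sum_le_sum fun i _ => ?_)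
    rw [h2 i, real_inner_comm x (b i)]
    have h4 : |⟪x, b i⟫_ℝ * (lam i * ⟪x, b i⟫_ℝ)| = |lam i| * (⟪x, b i⟫_ℝ * ⟪x, b i⟫_ℝ) := by
      rw [abs_mul, abs_mul, ← abs_mul_abs_self ⟪x, b i⟫_ℝ]; ring
    rw [h4]
    exact mul_le_mul_of_nonneg_right (hi0 i) (mul_self_nonneg _)
  have hsumM : 0 ≤ ∑ A, ∑ B, M A B ^ 2 :=
    Finset.sum_nonneg fun A _ => Finset.sum_nonneg fun B _ => sq_nonneg _
  have hth : lam i0 ^ 2 * d0 ≤ ∑ A, ∑ B, M A B ^ 2 := by
    by_cases h0 : lam i0 = 0
    · rw [h0]; simpa using hsumM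
    · set U := Module.End.eigenspace T (lam i0) with hUdef
      set U' : Submodule ℝ (S → ℝ) := U.map (WithLp.linearEquiv 2 ℝ (S → ℝ)).toLinearMap with hU'
      have hmem : ∀ G : S → ℝ, G ∈ U' ↔ M *ᵥ G = lam i0 • G := by
        intro G
        rw [hU', Submodule.mem_map]
        constructor
        · rintro ⟨y, hy, rfl⟩
          rw [hUdef, Module.End.mem_eigenspace_iff] at hy
          have := congrArg WithLp.ofLp hy
          rw [hTdef, Matrix.ofLp_toEuclideanLin_apply] at this
          exact this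
        · intro hG
          refine ⟨WithLp.toLp 2 G, ?_, rfl⟩
          rw [hUdef, Module.End.mem_eigenspace_iff, hTdef, Matrix.toEuclideanLin_apply]
          show WithLp.toLp 2 (M *ᵥ G) = _
          rw [hG]; rfl
      have hfin : finrank ℝ U' = finrank ℝ U := by
        rw [hU']
        exact LinearEquiv.finrank_map_eq (WithLp.linearEquiv 2 ℝ (S → ℝ)) U
      have hne : U' ≠ ⊥ := by
        intro h
        have h1 : b i0 ∈ U := by
          rw [hUdef, Module.End.mem_eigenspace_iff]; exact happ i0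
        have h2 : (WithLp.linearEquiv 2 ℝ (S → ℝ)).toLinearMap (b i0) ∈ U' :=
          Submodule.mem_map_of_mem h1
        rw [h, Submodule.mem_bot] at h2
        have h3 : b i0 = 0 := by
          have := (WithLp.linearEquiv 2 ℝ (S → ℝ)).injective (a₁ := b i0) (a₂ := 0)
          exact this (by rw [map_zero]; exact h2)
        have h4 := b.orthonormal.1 i0
        rw [h3, norm_zero] at h4
        norm_num at h4
      have hd := hU (lam i0) h0 U' hmem hne
      rw [hfin] at hd
      -- Bessel
      set e := stdOrthonormalBasis ℝ U with he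
      have hv : Orthonormal ℝ (fun i => (e i : EuclideanSpace ℝ S)) :=
        e.orthonormal.comp_linearIsometry U.subtypeₗᵢ
      have hTe : ∀ i, T (e i : EuclideanSpace ℝ S) = lam i0 • (e i : EuclideanSpace ℝ S) := by
        intro i
        exact Module.End.mem_eigenspace_iff.1 (e i).2
      have hrow : ∀ A : S, ∑ i, (lam i0) ^ 2 * ((e i : EuclideanSpace ℝ S).ofLp A) ^ 2 ≤
          ∑ B, M A B ^ 2 := by
        intro A
        have h1 := hv.sum_inner_products_le (s := Finset.univ)
          (x := (WithLp.toLp 2 (fun B => M A B) : EuclideanSpace ℝ S))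
        rw [EuclideanSpace.norm_sq_eq] at h1
        have h2 : ∀ i, ⟪(e i : EuclideanSpace ℝ S),
            (WithLp.toLp 2 (fun B => M A B) : EuclideanSpace ℝ S)⟫_ℝ =
            lam i0 * (e i : EuclideanSpace ℝ S).ofLp A := by
          intro i
          have h3 := congrArg (fun y : EuclideanSpace ℝ S => y.ofLp A) (hTe i)
          simp only [hTdef, Matrix.ofLp_toEuclideanLin_apply] at h3
          have h4 : (lam i0 • (e i : EuclideanSpace ℝ S)).ofLp A =
            lam i0 * (e i : EuclideanSpace ℝ S).ofLp A := rfl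
          rw [h4] at h3
          rw [← h3, EuclideanSpace.inner_eq_star_dotProduct]
          simp only [dotProduct, Matrix.mulVec, star_trivial]
        have h5 : ∑ i, (lam i0) ^ 2 * ((e i : EuclideanSpace ℝ S).ofLp A) ^ 2 =
            ∑ i, ‖⟪(e i : EuclideanSpace ℝ S),
              (WithLp.toLp 2 (fun B => M A B) : EuclideanSpace ℝ S)⟫_ℝ‖ ^ 2 := by
          apply Finset.sum_congr rfl
          intro i _
          rw [h2 i, Real.norm_eq_abs, sq_abs]; ring
        rw [h5]
        refine h1.trans (le_of_eq ?_)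
        apply Finset.sum_congr rfl
        intro B _
        rw [Real.norm_eq_abs, sq_abs]
      have hsum : (lam i0) ^ 2 * (finrank ℝ U : ℝ) ≤ ∑ A, ∑ B, M A B ^ 2 := by
        calc (lam i0) ^ 2 * (finrank ℝ U : ℝ)
            = ∑ i : Fin (finrank ℝ U), (lam i0) ^ 2 * ‖(e i : EuclideanSpace ℝ S)‖ ^ 2 := by
              have : ∀ i, ‖(e i : EuclideanSpace ℝ S)‖ = 1 := fun i => hv.1 i
              simp only [this]
              simp [mul_comm]
          _ = ∑ A, ∑ i, (lam i0) ^ 2 * ((e i : EuclideanSpace ℝ S).ofLp A) ^ 2 := by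
              rw [Finset.sum_comm]
              apply Finset.sum_congr rfl
              intro i _
              rw [EuclideanSpace.norm_sq_eq, Finset.mul_sum]
              apply Finset.sum_congr rfl
              intro A _
              rw [Real.norm_eq_abs, sq_abs]
          _ ≤ _ := Finset.sum_le_sum fun A _ => hrow A
      calc lam i0 ^ 2 * d0 ≤ lam i0 ^ 2 * (finrank ℝ U : ℝ) := by gcongr
        _ ≤ _ := hsum
  rw [hquad, hnorm]
  have h1 : ⟪x, T x⟫_ℝ ^ 2 ≤ (|lam i0| * ‖x‖ ^ 2) ^ 2 := by
    rw [← sq_abs]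
    exact pow_le_pow_left₀ (abs_nonneg _) hexp 2
  refine h1.trans ?_
  have h2 : lam i0 ^ 2 ≤ (∑ A, ∑ B, M A B ^ 2) / d0 := by
    rw [le_div_iff₀ hd0]; exact hth
  calc (|lam i0| * ‖x‖ ^ 2) ^ 2 = lam i0 ^ 2 * (‖x‖ ^ 2) ^ 2 := by rw [mul_pow, sq_abs]
    _ ≤ _ := by gcongr

open Pool.Agent.R341.SG in
theorem r2 (h : SR1) : SR2 := by
  intro α _ _ a ha W hsym hinv F hF
  -- the subtype
  have hsub : ∀ f : Finset α → ℝ, ∑ A ∈ powersetCard a univ, f A =
      ∑ A : {A : Finset α // A.card = a}, f A.1 := by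
    intro f
    exact Finset.sum_subtype (powersetCard a univ) (fun x => by
      rw [mem_powersetCard_univ]) f
  have hcardpos : 0 < Fintype.card α := by omega
  have hne : Nonempty {A : Finset α // A.card = a} := by
    obtain ⟨A, _, hA⟩ := Finset.exists_subset_card_eq (s := (univ : Finset α)) (n := a)
      (by rw [card_univ]; omega)
    exact ⟨⟨A, hA⟩⟩
  -- the action of a permutation on the subtype
  let act : Equiv.Perm α → Equiv.Perm {A : Finset α // A.card = a} := fun π =>
    { toFun := fun A => ⟨A.1.map π.toEmbedding, by rw [card_map]; exact A.2⟩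
      invFun := fun A => ⟨A.1.map π.symm.toEmbedding, by rw [card_map]; exact A.2⟩
      left_inv := fun A => Subtype.ext (by
        ext x; simp [Finset.mem_map_equiv])
      right_inv := fun A => Subtype.ext (by
        ext x; simp [Finset.mem_map_equiv]) }
  have hact : ∀ π A, (act π A).1 = A.1.map π.toEmbedding := fun π A => rfl
  have htrans : ∀ A A' : {A : Finset α // A.card = a}, ∃ π : Equiv.Perm α, act π A = A' := by
    intro A A'
    let e : {x // x ∈ A.1} ≃ {x // x ∈ A'.1} := Finset.equivOfCardEq (by rw [A.2, A'.2])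
    refine ⟨e.extendSubtype, Subtype.ext ?_⟩
    rw [hact]
    apply Finset.eq_of_subset_of_card_le
    · intro y hy
      rw [Finset.mem_map] at hy
      obtain ⟨x, hx, rfl⟩ := hy
      exact e.extendSubtype_mem x hx
    · rw [card_map, A.2, A'.2]
  -- row sums
  have hrow : ∀ A A' : {A : Finset α // A.card = a},
      ∑ B : {A : Finset α // A.card = a}, W A.1 B.1 =
      ∑ B : {A : Finset α // A.card = a}, W A'.1 B.1 := by
    intro A A'
    obtain ⟨π, rfl⟩ := htrans A A'
    rw [← Equiv.sum_comp (act π) (fun B => W (act π A).1 B.1)]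
    apply Finset.sum_congr rfl
    intro B _
    rw [hact, hact, hinv]
  obtain ⟨A0⟩ := id hne
  set n0 : ℝ := (Fintype.card {A : Finset α // A.card = a} : ℝ) with hn0
  have hn0pos : 0 < n0 := by
    rw [hn0]; exact_mod_cast Fintype.card_pos
  set w : ℝ := (∑ B : {A : Finset α // A.card = a}, W A0.1 B.1) / n0 with hw
  have hrw : ∀ A : {A : Finset α // A.card = a},
      ∑ B : {A : Finset α // A.card = a}, W A.1 B.1 = w * n0 := by
    intro A
    rw [hw, div_mul_cancel₀ _ hn0pos.ne']
    exact hrow A A0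
  let M : Matrix {A : Finset α // A.card = a} {A : Finset α // A.card = a} ℝ :=
    fun A B => W A.1 B.1 - w
  have hMdef : ∀ A B, M A B = W A.1 B.1 - w := fun A B => rfl
  have hM : M.IsHermitian := by
    ext A B
    simp only [Matrix.conjTranspose_apply, star_trivial]
    rw [hMdef, hMdef, hsym]
  have hM0 : ∀ A, ∑ B, M A B = 0 := by
    intro A
    simp only [hMdef]
    rw [Finset.sum_sub_distrib, hrw A, Finset.sum_const, nsmul_eq_mul, card_univ, ← hn0]
    ring
  have hMinv : ∀ (π : Equiv.Perm α) A B, M (act π A) (act π B) = M A B := by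
    intro π A B
    rw [hMdef, hMdef, hact, hact, hinv]
  have key := spec {A : Finset α // A.card = a} M hM ((Fintype.card α : ℝ) / 3) (by positivity) (by
    intro θ hθ U hU hUne
    apply h α a ha U
    · intro G hG π
      rw [hU] at hG ⊢
      have hG' : ∀ A, ∑ B, M A B * G B = θ * G A := by
        intro A
        have := congrFun hG A
        simpa [Matrix.mulVec, dotProduct] using this
      funext A
      show ∑ B, M A B * G (act π B) = θ * G (act π A)
      rw [← hG' (act π A), ← Equiv.sum_comp (act π) (fun B => M (act π A) B * G B)]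
      apply Finset.sum_congr rfl
      intro B _
      rw [hMinv]
    · intro G hG
      rw [hU] at hG
      have hG' : ∀ A, ∑ B, M A B * G B = θ * G A := by
        intro A
        have := congrFun hG A
        simpa [Matrix.mulVec, dotProduct] using this
      have h1 : θ * ∑ A, G A = 0 := by
        rw [Finset.mul_sum, ← Finset.sum_congr rfl (fun A _ => hG' A), Finset.sum_comm]
        apply Finset.sum_eq_zero
        intro B _
        rw [← Finset.sum_mul]
        have h2 : ∑ A, M A B = ∑ A, M B A := by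
          apply Finset.sum_congr rfl
          intro A _
          rw [hMdef, hMdef, hsym]
        rw [h2, hM0, zero_mul]
      exact (mul_eq_zero.1 h1).resolve_left hθ
    · exact hUne) (fun A => F A.1)
  have hF' : ∑ A : {A : Finset α // A.card = a}, F A.1 = 0 := by rw [← hsub]; exact hF
  have e1 : ∑ A ∈ powersetCard a univ, ∑ B ∈ powersetCard a univ, W A B * F A * F B =
      ∑ A, ∑ B, M A B * F A.1 * F B.1 := by
    rw [hsub]
    apply Finset.sum_congr rfl
    intro A _
    rw [hsub]
    simp only [hMdef]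
    have : ∀ B : {A : Finset α // A.card = a}, (W A.1 B.1 - w) * F A.1 * F B.1 =
        W A.1 B.1 * F A.1 * F B.1 - w * F A.1 * F B.1 := fun B => by ring
    simp only [this]
    rw [Finset.sum_sub_distrib, ← Finset.mul_sum, hF', mul_zero, sub_zero]
  have e2 : ∑ A, ∑ B, M A B ^ 2 ≤
      ∑ A ∈ powersetCard a univ, ∑ B ∈ powersetCard a univ, W A B ^ 2 := by
    rw [hsub]
    apply Finset.sum_le_sum
    intro A _
    rw [hsub]
    have h1 : ∀ B : {A : Finset α // A.card = a}, M A B ^ 2 =
        W A.1 B.1 ^ 2 - 2 * w * W A.1 B.1 + w ^ 2 := fun B => by rw [hMdef]; ring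
    simp only [h1]
    rw [Finset.sum_add_distrib, Finset.sum_sub_distrib, ← Finset.mul_sum, hrw A, Finset.sum_const,
      nsmul_eq_mul, card_univ, ← hn0]
    nlinarith [mul_nonneg hn0pos.le (sq_nonneg w)]
  rw [e1, hsub (fun A => F A ^ 2)]
  refine key.trans ?_
  gcongr

end Pool.Agent.R842.SG
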